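import Pool.Agent.H10.RIC.Stmts

/-!
# RIC, module WAA: few exceptions to weak abc of polynomial height
-/

set_option autoImplicit false

namespace Pool.RIC

open Finset Pool.Agent.H98.ABCR Pool.SHA

namespace WAA

theorem rad_pos (n : ℕ) : 0 < rad n :=
  Finset.prod_pos fun p hp => (Nat.prime_of_mem_primeFactors hp).pos

theorem rad_mul {a b : ℕ} (h : a.Coprime b) : rad (a * b) = rad a * rad b := by
  unfold rad
  rw [h.primeFactors_mul, Finset.prod_union h.disjoint_primeFactors]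

theorem RR_eq {v : ℕ × ℕ} (hv : IsTri v) : RR v = rad v.1 * rad v.2 * rad (v.1 + v.2) := by
  obtain ⟨-, -, hc⟩ := hv
  have c1 : (v.1 * v.2).Coprime (v.1 + v.2) := by
    apply Nat.Coprime.mul_left
    · simpa using hc
    · simpa [Nat.coprime_comm] using hc
  unfold RR nn
  rw [rad_mul c1, rad_mul hc]

theorem coord_pos {v : ℕ × ℕ} (hv : IsTri v) (i : Fin 3) : 0 < coord v i := by
  obtain ⟨h1, h2, -⟩ := hv
  fin_cases i
  · exact h1
  · exact h2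
  · exact Nat.add_pos_left h1 _

theorem rad_coord_le {v : ℕ × ℕ} (hv : IsTri v) (i : Fin 3) : rad (coord v i) ≤ RR v := by
  rw [RR_eq hv]
  have h1 := rad_pos v.1
  have h2 := rad_pos v.2
  have h3 := rad_pos (v.1 + v.2)
  fin_cases i
  · show rad v.1 ≤ _
    calc rad v.1 ≤ rad v.1 * (rad v.2 * rad (v.1 + v.2)) := Nat.le_mul_of_pos_right _ (by positivity)
      _ = _ := by ring
  · show rad v.2 ≤ _
    calc rad v.2 ≤ rad v.2 * (rad v.1 * rad (v.1 + v.2)) := Nat.le_mul_of_pos_right _ (by positivity)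
      _ = _ := by ring
  · show rad (v.1 + v.2) ≤ _
    calc rad (v.1 + v.2) ≤ rad (v.1 + v.2) * (rad v.1 * rad v.2) :=
        Nat.le_mul_of_pos_right _ (by positivity)
      _ = _ := by ring

/-- a coordinate with a large radical -/
theorem big_coord {v : ℕ × ℕ} (hv : IsTri v) {Z : ℝ} (hZ : 8 ≤ Z) (h : Z / 2 ≤ (RR v : ℝ)) :
    ∃ i, Z ^ (1 / 5 : ℝ) ≤ (rad (coord v i) : ℝ) := by
  by_contra hc
  have hc' : ∀ i, (rad (coord v i) : ℝ) < Z ^ (1 / 5 : ℝ) := fun i => not_le.1 fun hi => hc ⟨i, hi⟩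
  have hZ0 : 0 < Z := by linarith
  have p : 0 < Z ^ (1 / 5 : ℝ) := Real.rpow_pos_of_pos hZ0 _
  have a0 : (rad v.1 : ℝ) < Z ^ (1 / 5 : ℝ) := hc' 0
  have a1 : (rad v.2 : ℝ) < Z ^ (1 / 5 : ℝ) := hc' 1
  have a2 : (rad (v.1 + v.2) : ℝ) < Z ^ (1 / 5 : ℝ) := hc' 2
  have h2 : (2 : ℝ) ≤ Z ^ (2 / 5 : ℝ) := by
    have e : (2 : ℝ) = (8 : ℝ) ^ (1 / 3 : ℝ) := by
      rw [show (8 : ℝ) = (2 : ℝ) ^ (3 : ℝ) by norm_num, ← Real.rpow_mul (by norm_num)]
      norm_num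
    calc (2 : ℝ) = (8 : ℝ) ^ (1 / 3 : ℝ) := e
      _ ≤ Z ^ (1 / 3 : ℝ) := Real.rpow_le_rpow (by norm_num) hZ (by norm_num)
      _ ≤ Z ^ (2 / 5 : ℝ) := Real.rpow_le_rpow_of_exponent_le (by linarith) (by norm_num)
  have h3 : Z = Z ^ (1 / 5 : ℝ) * Z ^ (1 / 5 : ℝ) * Z ^ (1 / 5 : ℝ) * Z ^ (2 / 5 : ℝ) := by
    rw [← Real.rpow_add hZ0, ← Real.rpow_add hZ0, ← Real.rpow_add hZ0]
    norm_num
  have h4 : (RR v : ℝ) < Z ^ (1 / 5 : ℝ) * Z ^ (1 / 5 : ℝ) * Z ^ (1 / 5 : ℝ) := by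
    rw [RR_eq hv]
    push_cast
    have b0 : (0 : ℝ) < rad v.1 := by exact_mod_cast rad_pos v.1
    have b1 : (0 : ℝ) < rad v.2 := by exact_mod_cast rad_pos v.2
    have b2 : (0 : ℝ) < rad (v.1 + v.2) := by exact_mod_cast rad_pos (v.1 + v.2)
    have c1 : (rad v.1 : ℝ) * rad v.2 < Z ^ (1 / 5 : ℝ) * Z ^ (1 / 5 : ℝ) :=
      mul_lt_mul a0 a1.le b1 p.le
    exact mul_lt_mul c1 a2.le b2 (by positivity)
  have h5 : 0 < Z ^ (1 / 5 : ℝ) * Z ^ (1 / 5 : ℝ) * Z ^ (1 / 5 : ℝ) := by positivity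
  have h6 : Z ^ (1 / 5 : ℝ) * Z ^ (1 / 5 : ℝ) * Z ^ (1 / 5 : ℝ) * 2 ≤ Z := by
    calc Z ^ (1 / 5 : ℝ) * Z ^ (1 / 5 : ℝ) * Z ^ (1 / 5 : ℝ) * 2 ≤
        Z ^ (1 / 5 : ℝ) * Z ^ (1 / 5 : ℝ) * Z ^ (1 / 5 : ℝ) * Z ^ (2 / 5 : ℝ) :=
          mul_le_mul_of_nonneg_left h2 h5.le
      _ = Z := h3.symm
  linarith

theorem small_card (B : ℝ) (F : Finset (ℕ × ℕ))
    (h : ∀ v ∈ F, ((v.1 + v.2 : ℕ) : ℝ) ≤ B) : (F.card : ℝ) ≤ ((⌊B⌋₊ : ℝ) + 1) ^ 2 := by
  have hs : F ⊆ Finset.range (⌊B⌋₊ + 1) ×ˢ Finset.range (⌊B⌋₊ + 1) := by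
    intro v hv
    have h1 : v.1 + v.2 ≤ ⌊B⌋₊ := Nat.le_floor (h v hv)
    rw [Finset.mem_product, Finset.mem_range, Finset.mem_range]
    omega
  have h2 := Finset.card_le_card hs
  rw [Finset.card_product, Finset.card_range] at h2
  have h3 : (F.card : ℝ) ≤ (((⌊B⌋₊ + 1) * (⌊B⌋₊ + 1) : ℕ) : ℝ) := by exact_mod_cast h2
  refine h3.trans (le_of_eq ?_)
  push_cast
  ring

/-- dyadic summation over the radical -/
theorem dya (γ δ M X : ℝ) (hδ : 0 < δ) (hM : 0 ≤ M) (hX : 1 ≤ X) (F : Finset (ℕ × ℕ))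
    (hF : ∀ v ∈ F, (RR v : ℝ) ≤ X)
    (h : ∀ j ≤ Nat.log 2 ⌊X⌋₊,
      ((F.filter (fun v => Nat.log 2 (RR v) = j)).card : ℝ) ≤ M * X ^ γ) :
    (F.card : ℝ) ≤ (2 / δ + 1) * M * X ^ (γ + δ) := by
  classical
  have hX0 : 0 < X := by linarith
  have hcard : F.card = ∑ j ∈ Finset.range (Nat.log 2 ⌊X⌋₊ + 1),
      (F.filter (fun v => Nat.log 2 (RR v) = j)).card := by
    apply Finset.card_eq_sum_card_fiberwise
    intro v hv
    rw [Finset.mem_coe, Finset.mem_range, Nat.lt_succ_iff]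
    exact Nat.log_mono_right (Nat.le_floor (hF v hv))
  have hlog : ((Nat.log 2 ⌊X⌋₊ + 1 : ℕ) : ℝ) ≤ (2 / δ + 1) * X ^ δ := by
    have h0 : ⌊X⌋₊ ≠ 0 := by
      have : 1 ≤ ⌊X⌋₊ := Nat.le_floor (by exact_mod_cast hX)
      omega
    have h1 : ((2 : ℝ)) ^ (Nat.log 2 ⌊X⌋₊) ≤ X := by
      have h2 := Nat.pow_log_le_self 2 h0
      exact le_trans (by exact_mod_cast h2) (Nat.floor_le hX0.le)
    have h2 : (Nat.log 2 ⌊X⌋₊ : ℝ) * Real.log 2 ≤ Real.log X := by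
      rw [← Real.log_pow]
      exact Real.log_le_log (by positivity) h1
    have h3 : Real.log X ≤ X ^ δ / δ := Real.log_le_rpow_div hX0.le hδ
    have h4 : (1 : ℝ) / 2 ≤ Real.log 2 := by
      have := Real.log_two_gt_d9
      linarith
    have h5 : (Nat.log 2 ⌊X⌋₊ : ℝ) ≤ 2 * Real.log X := by
      have h6 : (0 : ℝ) ≤ (Nat.log 2 ⌊X⌋₊ : ℝ) := Nat.cast_nonneg _
      nlinarith
    have h6 : 1 ≤ X ^ δ := Real.one_le_rpow hX hδ.le
    push_cast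
    calc (Nat.log 2 ⌊X⌋₊ : ℝ) + 1 ≤ 2 * (X ^ δ / δ) + X ^ δ := by linarith
      _ = (2 / δ + 1) * X ^ δ := by ring
  have hγ : 0 < X ^ γ := Real.rpow_pos_of_pos hX0 _
  rw [hcard, Nat.cast_sum]
  calc ∑ j ∈ Finset.range (Nat.log 2 ⌊X⌋₊ + 1),
        ((F.filter (fun v => Nat.log 2 (RR v) = j)).card : ℝ)
      ≤ ∑ _j ∈ Finset.range (Nat.log 2 ⌊X⌋₊ + 1), M * X ^ γ := by
        refine Finset.sum_le_sum fun j hj => h j ?_
        rw [Finset.mem_range] at hj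
        omega
    _ = ((Nat.log 2 ⌊X⌋₊ + 1 : ℕ) : ℝ) * (M * X ^ γ) := by
        rw [Finset.sum_const, nsmul_eq_mul, Finset.card_range]
    _ ≤ ((2 / δ + 1) * X ^ δ) * (M * X ^ γ) :=
        mul_le_mul_of_nonneg_right hlog (mul_nonneg hM hγ.le)
    _ = (2 / δ + 1) * M * (X ^ γ * X ^ δ) := by ring
    _ = (2 / δ + 1) * M * X ^ (γ + δ) := by rw [← Real.rpow_add hX0]

/-- one dyadic class -/
theorem cls (κ ν ε δ A K C1 C2 : ℝ) (N : ℕ) (hC1 : 1 ≤ C1) (hC2 : 1 ≤ C2) (h1 : ν + ε ≤ δ)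
    (h2 : ε ≤ δ)
    (hR : ∀ (X Y : ℝ) (F : Finset (ℕ × ℕ)), 1 ≤ X → 1 ≤ Y → Y ≤ X →
      (∀ v ∈ F, IsTri v ∧ (RR v : ℝ) ≤ X ∧ hh v ≤ κ * Real.log X ∧
        ∃ i, Y ≤ (rad (coord v i) : ℝ) ∧ Rich ν X (coord v i)) →
      (F.card : ℝ) ≤ C1 * X ^ (ν + ε) * Real.sqrt (X / Y))
    (hS : ∀ (X : ℝ) (n : ℕ), 1 ≤ X → 0 < n → (rad n : ℝ) ≤ X →
      (∃ α b : ℕ, n = α * b ∧ rad α ≤ rad n ∧ Pool.PW.PowProd N (X ^ A) b) ∧
      (¬ Rich ν X n → Pool.PW.PowProd N (X ^ A) n))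
    (hP : ∀ (X Y : ℝ) (F : Finset (ℕ × ℕ)), 1 ≤ X → 1 ≤ Y →
      (∀ v ∈ F, IsTri v ∧ K * Real.log X ≤ hh v ∧ hh v ≤ κ * Real.log X ∧
        (∃ i, Pool.PW.PowProd N (X ^ A) (coord v i)) ∧
        ∀ i, Pool.PW.PowProd N (X ^ A) (coord v i) ∨
          ∃ α b : ℕ, coord v i = α * b ∧ (rad α : ℝ) ≤ Y ∧ Pool.PW.PowProd N (X ^ A) b) →
      (F.card : ℝ) ≤ C2 * X ^ ε * Y ^ 2)
    (Z : ℝ) (hZ : 8 ≤ Z) (F : Finset (ℕ × ℕ))
    (hF : ∀ v ∈ F, IsTri v ∧ (RR v : ℝ) ≤ Z ∧ Z / 2 ≤ (RR v : ℝ) ∧ K * Real.log Z ≤ hh v ∧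
      hh v ≤ κ * Real.log Z) :
    (F.card : ℝ) ≤ (C1 + C2) * Z ^ (2 / 5 + δ) := by
  classical
  have hZ0 : 0 < Z := by linarith
  have hZ1 : 1 ≤ Z := by linarith
  have hY1 : 1 ≤ Z ^ (1 / 5 : ℝ) := Real.one_le_rpow hZ1 (by norm_num)
  have hYZ : Z ^ (1 / 5 : ℝ) ≤ Z := by
    calc Z ^ (1 / 5 : ℝ) ≤ Z ^ (1 : ℝ) := Real.rpow_le_rpow_of_exponent_le hZ1 (by norm_num)
      _ = Z := Real.rpow_one Z
  set p : ℕ × ℕ → Prop := fun v =>
    ∃ i, Z ^ (1 / 5 : ℝ) ≤ (rad (coord v i) : ℝ) ∧ Rich ν Z (coord v i) with hp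
  have e1 : ((F.filter p).card : ℝ) ≤ C1 * Z ^ (2 / 5 + δ) := by
    have h := hR Z (Z ^ (1 / 5 : ℝ)) (F.filter p) hZ1 hY1 hYZ (by
      intro v hv
      rw [Finset.mem_filter] at hv
      obtain ⟨t1, t2, -, -, t5⟩ := hF v hv.1
      exact ⟨t1, t2, t5, hv.2⟩)
    refine h.trans ?_
    have e : Real.sqrt (Z / Z ^ (1 / 5 : ℝ)) = Z ^ (2 / 5 : ℝ) := by
      have e2 : Z / Z ^ (1 / 5 : ℝ) = Z ^ (4 / 5 : ℝ) := by
        rw [div_eq_iff (by positivity), ← Real.rpow_add hZ0]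
        norm_num
      rw [e2, Real.sqrt_eq_rpow, ← Real.rpow_mul hZ0.le]
      norm_num
    rw [e, mul_assoc, ← Real.rpow_add hZ0]
    refine mul_le_mul_of_nonneg_left ?_ (by linarith)
    exact Real.rpow_le_rpow_of_exponent_le hZ1 (by linarith)
  have e2 : ((F.filter (fun v => ¬ p v)).card : ℝ) ≤ C2 * Z ^ (2 / 5 + δ) := by
    have h := hP Z (Z ^ (1 / 5 : ℝ)) (F.filter (fun v => ¬ p v)) hZ1 hY1 (by
      intro v hv
      rw [Finset.mem_filter] at hv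
      obtain ⟨hvF, hnp⟩ := hv
      obtain ⟨t1, t2, t3, t4, t5⟩ := hF v hvF
      have hrad : ∀ i, (rad (coord v i) : ℝ) ≤ Z := fun i =>
        le_trans (by exact_mod_cast rad_coord_le t1 i) t2
      have hnp' : ∀ i, Rich ν Z (coord v i) → (rad (coord v i) : ℝ) < Z ^ (1 / 5 : ℝ) :=
        fun i hi => not_le.1 fun hc => hnp ⟨i, hc, hi⟩
      refine ⟨t1, t4, t5, ?_, ?_⟩
      · obtain ⟨i, hi⟩ := big_coord t1 hZ t3
        refine ⟨i, (hS Z (coord v i) hZ1 (coord_pos t1 i) (hrad i)).2 ?_⟩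
        intro hc
        exact absurd hi (not_le.2 (hnp' i hc))
      · intro i
        obtain ⟨⟨α, b, s1, s2, s3⟩, s4⟩ := hS Z (coord v i) hZ1 (coord_pos t1 i) (hrad i)
        by_cases hr : Rich ν Z (coord v i)
        · right
          refine ⟨α, b, s1, le_trans ?_ (hnp' i hr).le, s3⟩
          exact_mod_cast s2
        · exact Or.inl (s4 hr))
    refine h.trans ?_
    have e : (Z ^ (1 / 5 : ℝ)) ^ 2 = Z ^ (2 / 5 : ℝ) := by
      rw [← Real.rpow_natCast, ← Real.rpow_mul hZ0.le]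
      norm_num
    rw [e, mul_assoc, ← Real.rpow_add hZ0]
    refine mul_le_mul_of_nonneg_left ?_ (by linarith)
    exact Real.rpow_le_rpow_of_exponent_le hZ1 (by linarith)
  have e3 : (F.card : ℝ) = ((F.filter p).card : ℝ) + ((F.filter (fun v => ¬ p v)).card : ℝ) := by
    rw [← Finset.card_filter_add_card_filter_not (s := F) p]
    push_cast
    ring
  rw [e3, add_mul]
  exact add_le_add e1 e2

end WAA

open WAA in
/-- **WAA**. -/
theorem waa_thm (h1 : S_RCH) (h2 : S_STR) (h3 : S_POW) : S_WAA := by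
  classical
  intro ε hε
  have h0 : 0 < min ε 1 := lt_min hε one_pos
  have h01 : min ε 1 ≤ 1 := min_le_right _ _
  obtain ⟨ε0, hε0⟩ : ∃ e, e = min ε 1 := ⟨_, rfl⟩
  rw [← hε0] at h0 h01
  have h02 : ε0 ≤ ε := by rw [hε0]; exact min_le_left _ _
  obtain ⟨N, A, hA, hS⟩ := h2 (ε0 / 4) (by linarith) (by linarith)
  obtain ⟨K, hK, hP⟩ := h3 N A (ε0 / 4) hA (by linarith)
  refine ⟨2 * K, by linarith, fun κ hκ => ?_⟩
  obtain ⟨C1, hC1, hR⟩ := h1 (max κ 3) (ε0 / 4) (ε0 / 4) (le_max_right _ _) (by linarith)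
    (by linarith)
  obtain ⟨C2, hC2, hP2⟩ := hP (max κ 3) (hκ.trans (le_max_left _ _))
  have hM0 : 0 ≤ ((⌊Real.exp (κ * Real.log 8)⌋₊ : ℝ) + 1) ^ 2 := by positivity
  obtain ⟨B, hB⟩ : ∃ B : ℝ, B = ((⌊Real.exp (κ * Real.log 8)⌋₊ : ℝ) + 1) ^ 2 := ⟨_, rfl⟩
  rw [← hB] at hM0
  obtain ⟨M, hM⟩ : ∃ M : ℝ, M = 2 * (C1 + C2) + B := ⟨_, rfl⟩
  have hM1 : 1 ≤ M := by linarith
  have hδ : 0 < ε0 / 2 := by linarith
  have hCC : 1 ≤ (2 / (ε0 / 2) + 1) * M := by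
    have : 1 ≤ 2 / (ε0 / 2) + 1 := by
      have : 0 ≤ 2 / (ε0 / 2) := by positivity
      linarith
    nlinarith
  refine ⟨(2 / (ε0 / 2) + 1) * M, hCC, ?_⟩
  intro X F hX hF
  have hX0 : 0 < X := by linarith
  have key := dya (2 / 5 + ε0 / 2) (ε0 / 2) M X hδ (by linarith) hX F (fun v hv => (hF v hv).2.1)
    (by
    intro j hj
    have hXγ : 1 ≤ X ^ (2 / 5 + ε0 / 2) := Real.one_le_rpow hX (by linarith)
    by_cases hj2 : j < 2
    · have h4 := small_card (Real.exp (κ * Real.log 8))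
        (F.filter (fun v => Nat.log 2 (RR v) = j)) (by
        intro v hv
        rw [Finset.mem_filter] at hv
        obtain ⟨hvF, hvj⟩ := hv
        obtain ⟨t1, t2, t3, t4⟩ := hF v hvF
        have hR0 : 0 < RR v := rad_pos _
        have h5 : RR v < 2 ^ (j + 1) := by
          rw [← hvj]; exact Nat.lt_pow_succ_log_self (by norm_num) _
        have h6 : (2 : ℕ) ^ (j + 1) ≤ 2 ^ 2 := Nat.pow_le_pow_right (by norm_num) (by omega)
        have h7 : (RR v : ℝ) ≤ 8 := by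
          have : RR v ≤ 8 := by omega
          exact_mod_cast this
        have h8 : Real.log (RR v) ≤ Real.log 8 :=
          Real.log_le_log (by exact_mod_cast hR0) h7
        have hpos : (0 : ℝ) < ((v.1 + v.2 : ℕ) : ℝ) := by
          obtain ⟨u1, u2, -⟩ := t1
          exact_mod_cast (by omega : 0 < v.1 + v.2)
        rw [← Real.log_le_iff_le_exp hpos]
        calc Real.log ((v.1 + v.2 : ℕ) : ℝ) = hh v := rfl
          _ ≤ κ * Real.log (RR v) := t4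
          _ ≤ κ * Real.log 8 := mul_le_mul_of_nonneg_left h8 (by linarith))
      rw [← hB] at h4
      calc ((F.filter (fun v => Nat.log 2 (RR v) = j)).card : ℝ) ≤ B := h4
        _ ≤ M := by linarith
        _ = M * 1 := (mul_one M).symm
        _ ≤ M * X ^ (2 / 5 + ε0 / 2) := mul_le_mul_of_nonneg_left hXγ (by linarith)
    · have hj2' : 2 ≤ j := not_lt.1 hj2
      have hl2 : 0 < Real.log 2 := Real.log_pos (by norm_num)
      have hZ8 : (8 : ℝ) ≤ (2 : ℝ) ^ (j + 1) := by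
        calc (8 : ℝ) = 2 ^ 3 := by norm_num
          _ ≤ 2 ^ (j + 1) := pow_le_pow_right₀ (by norm_num) (by omega)
      have hlZ : Real.log ((2 : ℝ) ^ (j + 1)) = ((j : ℝ) + 1) * Real.log 2 := by
        rw [Real.log_pow]
        push_cast
        ring
      have hj2r : (2 : ℝ) ≤ j := by exact_mod_cast hj2'
      have h4 := cls (max κ 3) (ε0 / 4) (ε0 / 4) (ε0 / 2) A K C1 C2 N hC1 hC2 (by linarith)
        (by linarith) hR hS hP2 ((2 : ℝ) ^ (j + 1)) hZ8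
        (F.filter (fun v => Nat.log 2 (RR v) = j)) (by
        intro v hv
        rw [Finset.mem_filter] at hv
        obtain ⟨hvF, hvj⟩ := hv
        obtain ⟨t1, t2, t3, t4⟩ := hF v hvF
        have hR0 : 0 < RR v := rad_pos _
        have hR0' : (0 : ℝ) < RR v := by exact_mod_cast hR0
        have h5 : RR v < 2 ^ (j + 1) := by
          rw [← hvj]; exact Nat.lt_pow_succ_log_self (by norm_num) _
        have h6 : 2 ^ j ≤ RR v := by
          rw [← hvj]; exact Nat.pow_log_le_self 2 (by omega)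
        have h5' : (RR v : ℝ) ≤ (2 : ℝ) ^ (j + 1) := by exact_mod_cast h5.le
        have h6' : (2 : ℝ) ^ j ≤ (RR v : ℝ) := by exact_mod_cast h6
        have h7 : (j : ℝ) * Real.log 2 ≤ Real.log (RR v) := by
          rw [← Real.log_pow]
          exact Real.log_le_log (by positivity) h6'
        have h8 : Real.log (RR v) ≤ ((j : ℝ) + 1) * Real.log 2 := by
          rw [← hlZ]
          exact Real.log_le_log hR0' h5'
        refine ⟨t1, h5', ?_, ?_, ?_⟩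
        · rw [pow_succ]
          linarith
        · rw [hlZ]
          calc K * (((j : ℝ) + 1) * Real.log 2) ≤ K * (2 * ((j : ℝ) * Real.log 2)) := by
                refine mul_le_mul_of_nonneg_left ?_ (by linarith)
                nlinarith
            _ ≤ K * (2 * Real.log (RR v)) := mul_le_mul_of_nonneg_left (by linarith) (by linarith)
            _ = 2 * K * Real.log (RR v) := by ring
            _ ≤ hh v := t3
        · rw [hlZ]
          have hk : 0 ≤ max κ 3 := le_trans (by norm_num) (le_max_right κ 3)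
          calc hh v ≤ κ * Real.log (RR v) := t4
            _ ≤ max κ 3 * Real.log (RR v) := by
                refine mul_le_mul_of_nonneg_right (le_max_left _ _) ?_
                exact le_trans (by positivity) h7
            _ ≤ max κ 3 * (((j : ℝ) + 1) * Real.log 2) := mul_le_mul_of_nonneg_left h8 hk)
      refine h4.trans ?_
      have h5 : (2 : ℝ) ^ (j + 1) ≤ 2 * X := by
        have h6 : 2 ^ j ≤ ⌊X⌋₊ := by
          refine le_trans (Nat.pow_le_pow_right (by norm_num) hj) (Nat.pow_log_le_self 2 ?_)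
          have : 1 ≤ ⌊X⌋₊ := Nat.le_floor (by exact_mod_cast hX)
          omega
        have h7 : ((2 : ℝ)) ^ j ≤ X := le_trans (by exact_mod_cast h6) (Nat.floor_le hX0.le)
        rw [pow_succ]; linarith
      have h6 : ((2 : ℝ) ^ (j + 1)) ^ (2 / 5 + ε0 / 2) ≤ 2 * X ^ (2 / 5 + ε0 / 2) := by
        calc ((2 : ℝ) ^ (j + 1)) ^ (2 / 5 + ε0 / 2) ≤ (2 * X) ^ (2 / 5 + ε0 / 2) :=
              Real.rpow_le_rpow (by positivity) h5 (by linarith)
          _ = (2 : ℝ) ^ (2 / 5 + ε0 / 2) * X ^ (2 / 5 + ε0 / 2) :=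
              Real.mul_rpow (by norm_num) hX0.le
          _ ≤ 2 * X ^ (2 / 5 + ε0 / 2) := by
              refine mul_le_mul_of_nonneg_right ?_ (by positivity)
              calc (2 : ℝ) ^ (2 / 5 + ε0 / 2) ≤ (2 : ℝ) ^ (1 : ℝ) :=
                    Real.rpow_le_rpow_of_exponent_le (by norm_num) (by linarith)
                _ = 2 := Real.rpow_one _
      calc (C1 + C2) * ((2 : ℝ) ^ (j + 1)) ^ (2 / 5 + ε0 / 2)
          ≤ (C1 + C2) * (2 * X ^ (2 / 5 + ε0 / 2)) := mul_le_mul_of_nonneg_left h6 (by linarith)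
        _ = 2 * (C1 + C2) * X ^ (2 / 5 + ε0 / 2) := by ring
        _ ≤ M * X ^ (2 / 5 + ε0 / 2) := mul_le_mul_of_nonneg_right (by linarith) (by linarith))
  refine key.trans ?_
  refine mul_le_mul_of_nonneg_left ?_ (by linarith)
  exact Real.rpow_le_rpow_of_exponent_le hX (by linarith)

end Pool.RIC
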